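import Mathlib
import Pool.Agent.H586R2.KCB.Main

set_option autoImplicit false

namespace Pool.Agent.Results.MP_1bbcfd_lc.OracleLowerBound

open Pool.Agent.H586R2.KCB

/-- Negative answer to Q1. Every algorithm that finds maximum weight `k`-feasible sets of two
matroids given by independence oracles makes, for every `m ≥ 1`, at least `binom (2m) m` oracle calls
on some valid instance with `8 m` elements and all weights in `{1, 3, 4}`. Consequently no algorithm
for the problem makes a number of oracle calls bounded by a polynomial in the size of the ground set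
and the bit size of the weights. -/
theorem result :
    (∀ A : OracleAlgorithm, Solves A → ∀ m : ℕ, 0 < m →
      ∃ (M₁ M₂ : Matroid (Fin (8 * m))) (w : Fin (8 * m) → ℚ) (k : ℕ),
        ValidInstance M₁ M₂ w k ∧ (∀ e, w e = 1 ∨ w e = 3 ∨ w e = 4) ∧
        (2 * m).choose m ≤ (A (8 * m) w k).calls M₁ M₂) ∧
    ¬ ∃ A : OracleAlgorithm, Solves A ∧ PolynomiallyManyCalls A :=
  ⟨fun A hA m hm => lower_bound A hA m hm, fun ⟨A, hA, hP⟩ => no_polynomial A hA hP⟩

end Pool.Agent.Results.MP_1bbcfd_lc.OracleLowerBound
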